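import Pool.Agent.TH373.EP.Re
import Pool.Agent.TH373.EP.Tor
import Pool.Agent.TH373.EP.PolyJ

/-!
# The elliptico-toric conjecture at almost all real points, up to any given degree and height, with a measure

`L` is a pair of periods (independent over `ℝ`), `L.lattice = ℤ ω₁ + ℤ ω₂ = Ω` and `℘[L]` is Mathlib's Weierstrass
function. We consider lattices which are stable under complex conjugation (elliptic curves over `ℝ`). Every rational
parameter `q_j` gives either a point `p = c_j q_j` of the elliptic curve (`ell j = true`), with the numbers `℘(p)` and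
`ζ(p)`, or two toric points `t = c_j q_j` and `t' = log q_j` (`ell j = false`), with the numbers `e^t` and `t'`
(`e^(t') = q_j` is rational). The number `π` belongs to the field generated by the periods and quasi-periods
(Legendre's relation).
-/

set_option autoImplicit false

open scoped PeriodPair ComplexConjugate

namespace Pool.Agent.Results.MP_8da9ea_nt.AlmostAllRealPoints

/-- The Weierstrass zeta function `ζ(z) = ∑ (1/(z-l) + 1/l + z/l²)`, the sum over the lattice (the
summand of `l = 0` is `1/z`, since `1/0 = 0` in Lean). -/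
noncomputable def ζ (L : PeriodPair) (z : ℂ) : ℂ :=
  ∑' l : L.lattice, (1 / (z - l) + 1 / l + z / l ^ 2)

/-- The `2 n + 1` numbers `π`, `℘(c_j q_j)`, `ζ(c_j q_j)` (`ell j = true`), `e^(c_j q_j)`, `log q_j` (`ell j = false`). -/
noncomputable def values (L : PeriodPair) {n : ℕ} (ell : Fin n → Bool) (c : Fin n → ℝ) (q : Fin n → ℚ)
    (x : Option (Fin n × Fin 2)) : ℂ :=
  match x with
  | none => (Real.pi : ℂ)
  | some (j, i) =>
    if ell j then (if i = 0 then ℘[L] ((c j * q j : ℝ) : ℂ) else ζ L ((c j * q j : ℝ) : ℂ))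
    else (if i = 0 then ((Real.exp (c j * q j) : ℝ) : ℂ) else ((Real.log (q j) : ℝ) : ℂ))

/-- The `n`-tuples `q` of rational numbers `q_j` in `[a_j, b_j]` with denominators at most `T` for which some nonzero
polynomial in `2 n + 1` variables with integer coefficients of absolute value at most `T ^ A`, of degree at most `d` in
each variable, takes at the `values` a value of absolute value at most `T ^ (-B)`. -/
def Exceptional (L : PeriodPair) {n : ℕ} (d : ℕ) (ell : Fin n → Bool) (c a b : Fin n → ℝ) (A B T : ℝ) :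
    Set (Fin n → ℚ) :=
  {q | (∀ j, a j ≤ q j ∧ q j ≤ b j ∧ ((q j).den : ℝ) ≤ T) ∧
    ∃ P : MvPolynomial (Option (Fin n × Fin 2)) ℤ, P ≠ 0 ∧ (∀ x, P.degreeOf x ≤ d) ∧
      (∀ s, |((P.coeff s : ℤ) : ℝ)| ≤ T ^ A) ∧ ‖MvPolynomial.aeval (values L ell c q) P‖ ≤ T ^ (-B)}

/-- Let `Ω` be a lattice stable under complex conjugation, `n ≥ 1`, `c_1, …, c_n` nonzero real numbers, `a_j < b_j` such
that `c_j t ∉ Ω` for `t ∈ [a_j, b_j]` if `ell j = true`, and `a_j > 0` if `ell j = false`, and let at least one parameter be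
of the second kind (for elliptic parameters only, see MP_2ad15a_nt.AlmostAllRealPoints). Let `d`, `A ≥ 0` be given, and let
`β > 2 - 2 / ((d + 1)^(2n + 1) + 1)`. There are `B` and `C` such that for all `T ≥ 1` the number of exceptional
`n`-tuples is at most `C T^(2(n - 1) + β)`. -/
theorem result (L : PeriodPair) (hL : ∀ w ∈ L.lattice, conj w ∈ L.lattice) (n d : ℕ) (hn : 1 ≤ n)
    (ell : Fin n → Bool) (c a b : Fin n → ℝ) (hc : ∀ j, c j ≠ 0) (hab : ∀ j, a j < b j)
    (hell : ∀ j, ell j = true → ∀ t : ℝ, a j ≤ t → t ≤ b j → ((c j * t : ℝ) : ℂ) ∉ L.lattice)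
    (htor : ∀ j, ell j = false → 0 < a j) (_hs : ∃ j, ell j = false) (A β : ℝ) (hA : 0 ≤ A)
    (hβ : 2 - 2 / (((d : ℝ) + 1) ^ (2 * n + 1) + 1) < β) :
    ∃ B C : ℝ, ∀ T : ℝ, 1 ≤ T → (Exceptional L d ell c a b A B T).Finite ∧
      ((Exceptional L d ell c a b A B T).ncard : ℝ) ≤ C * T ^ (2 * ((n : ℝ) - 1) + β) := by
  refine TH373.EP.polysJ (fun j => if ell j then TH373.EP.f2 L (c j) else TH373.EP.g2 (c j)) a b hab ?_ ?_ hn
    (values L ell c) (fun _ => rfl) ?_ A β hA hβ
  · intro j i t ht
    cases h : ell j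
    · simp only [Bool.false_eq_true, ↓reduceIte]
      exact TH373.EP.g2_an (c j) i (lt_of_lt_of_le (htor j h) ht.1)
    · simp only [↓reduceIte]
      unfold TH373.EP.f2
      split_ifs
      · exact TH373.EP.fP_an L (hell j h t ht.1 ht.2)
      · exact TH373.EP.fZ_an L (hell j h t ht.1 ht.2)
  · intro j
    cases h : ell j
    · simp only [Bool.false_eq_true, ↓reduceIte]
      exact TH373.EP.tor_rindep d (hc j) (htor j h) (hab j)
    · simp only [↓reduceIte]
      exact TH373.EP.rindep L hL d (hc j) (hab j) (fun t ht => hell j h t ht.1 ht.2)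
  · intro q hq j i
    simp only [values]
    cases h : ell j
    · simp only [Bool.false_eq_true, ↓reduceIte, TH373.EP.g2]
      split_ifs <;> rfl
    · simp only [↓reduceIte, TH373.EP.f2]
      split_ifs
      · exact (TH373.EP.fP_coe L hL (c j) (q j)).symm
      · exact (TH373.EP.fZ_coe L hL (c j) (q j)).symm

end Pool.Agent.Results.MP_8da9ea_nt.AlmostAllRealPoints
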