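import Mathlib
import Pool.Agent.TH813.MixAll

/-!
# The elliptico-toric conjecture: few points of rational spaces solve a mixed system

`L` is a pair of periods `ω₁, ω₂` (independent over `ℝ`), `L.lattice = ℤ ω₁ + ℤ ω₂ = Ω`, and
`℘[L]`, `L.g₂`, `L.g₃` are Mathlib's Weierstrass function and invariants. `F` is any subfield of `ℂ`
which contains `g₂`, `g₃`, for example the field `ℚ(g₂, g₃, ω₁, ω₂, η₁, η₂)` or its algebraic
closure.

The numbers `t_l` and `p_i` of the conjecture are here the components `z_i` of one vector `z`, and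
each `i` has a kind: `ex` if `z_i` is one of the `t`, and `wp` or `ze` if `z_i` is one of the `p`. We
consider the systems which have one equation for each `i`, namely `P_i(z) e^{z_i} = Q_i(z)`, or
`P_i(z) ℘(z_i) = Q_i(z)`, or `ζ(z_i) = Q_i(z)`, with polynomials over `F` in all of the `z_j`. For
their solutions, with `s` indices of kind `ex` and `n` other indices, the transcendence degree of
`F(t, e^t, p, ℘(p), ζ(p))` over `F` is at most `s + 2 n`: they are boundary cases of the conjecture.
The theorem gives an upper bound for the number of solutions with components in rational spaces.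
-/

set_option autoImplicit false

open Module
open scoped PeriodPair

namespace Pool.Agent.Results.MP_8da9ea_nt.FewSolutions

/-- The Weierstrass zeta function `ζ(z) = ∑ (1/(z-l) + 1/l + z/l²)`, the sum over the lattice (the
summand of `l = 0` is `1/z`, since `1/0 = 0` in Lean). -/
noncomputable def ζ (L : PeriodPair) (z : ℂ) : ℂ :=
  ∑' l : L.lattice, (1 / (z - l) + 1 / l + z / l ^ 2)

/-- the kinds of the unknowns: there is an equation for `e^u`, for `℘(u)`, or for `ζ(u)` -/
inductive Kind
  | ex
  | wp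
  | ze

/-- `e^u` is algebraic over `F`, resp. `u` is in the lattice or `℘(u)` is algebraic over `F`: so `u`
is a logarithm of a point of `𝔾ₘ`, resp. of the elliptic curve, which is algebraic over `F` -/
def IsLog (F : IntermediateField ℚ ℂ) (L : PeriodPair) : Kind → ℂ → Prop
  | Kind.ex, u => IsAlgebraic F (Complex.exp u)
  | Kind.wp, u => u ∈ L.lattice ∨ IsAlgebraic F (℘[L] u)
  | Kind.ze, u => u ∈ L.lattice ∨ IsAlgebraic F (℘[L] u)

/-- the equation of an unknown `u`, with the values `A`, `B` of the polynomials: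
`A e^{u + c} = B` resp. `A ℘(u + c) = B` with `A ≠ 0` for some logarithm `c` (for instance `c = 0`) of
a point which is algebraic over `F`; resp. `ζ(u) = B + β` with a number `β` which is algebraic over
`F` (for instance `β = 0`). Unknowns of the kinds `wp`, `ze` have to be different from `0`. -/
def Equation (F : IntermediateField ℚ ℂ) (L : PeriodPair) : Kind → ℂ → ℂ → ℂ → Prop
  | Kind.ex, A, B, u => A ≠ 0 ∧ ∃ c, IsLog F L Kind.ex c ∧ A * Complex.exp (u + c) = B
  | Kind.wp, A, B, u => A ≠ 0 ∧ u ≠ 0 ∧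
      ∃ c, IsLog F L Kind.wp c ∧ u + c ∉ L.lattice ∧ A * ℘[L] (u + c) = B
  | Kind.ze, _, B, u => u ≠ 0 ∧ ∃ β, IsAlgebraic F β ∧ ζ L u = B + β

section aux

/-- the group of a kind -/
def ty (L : PeriodPair) : Kind → Option PeriodPair
  | Kind.ex => none
  | Kind.wp => some L
  | Kind.ze => some L

/-- the flag of a kind -/
def fl : Kind → Bool
  | Kind.ex => false
  | Kind.wp => false
  | Kind.ze => true

end aux

open Pool.Agent.TH813 in
/-- **Main result.** Let `F` be a subfield of `ℂ` which contains `g₂`, `g₃`, and let `V i`,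
`i = 1, …, n`, be `ℚ`-spaces of complex numbers of finite dimensions, `R = ∑ dim V i`. Each index `i`
has a kind; no nonzero `u` in `V i` has `e^u` algebraic over `F` if this kind is `ex`, and no nonzero
`u` in `V i` is in the lattice or has `℘(u)` algebraic over `F` if it is `wp` or `ze`. Let `P_i`,
`Q_i` be polynomials over `F` in `n` variables, of total degrees at most `a` and `b`, `a ≤ b`,
`b ≥ 1`. Then at most `binom((a + 3 b + 3) R, R)` points `z` of `∏ V i` satisfy all equations
`P_i(z) e^{z_i + c_i} = Q_i(z)` (kind `ex`), `P_i(z) ℘(z_i + c_i) = Q_i(z)` (kind `wp`),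
`ζ(z_i) = Q_i(z) + β_i` (kind `ze`), for some logarithms `c_i` of points which are algebraic over `F`
and some numbers `β_i` which are algebraic over `F`, and the conditions `P_i(z) ≠ 0` (kinds `ex`,
`wp`) and `z_i ≠ 0` (kinds `wp`, `ze`). -/
theorem result (L : PeriodPair) (F : IntermediateField ℚ ℂ) (h2 : L.g₂ ∈ F) (h3 : L.g₃ ∈ F)
    (n : ℕ) (κ : Fin n → Kind) (V : Fin n → Submodule ℚ ℂ) (hfd : ∀ i, FiniteDimensional ℚ (V i))
    (hV : ∀ i, ∀ u ∈ V i, IsLog F L (κ i) u → u = 0) (a b : ℕ) (hab : a ≤ b) (hb : 1 ≤ b)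
    (P Q : Fin n → MvPolynomial (Fin n) F) (hP : ∀ i, (P i).totalDegree ≤ a)
    (hQ : ∀ i, (Q i).totalDegree ≤ b) :
    {z : ∀ i, V i | ∀ i, Equation F L (κ i) (MvPolynomial.aeval (fun j => (z j : ℂ)) (P i))
      (MvPolynomial.aeval (fun j => (z j : ℂ)) (Q i)) (z i)}.encard ≤
      (((a + 3 * b + 3) * ∑ i, finrank ℚ (V i)).choose (∑ i, finrank ℚ (V i)) : ℕ) := by
  classical
  set N := ((a + 3 * b + 3) * ∑ i, finrank ℚ (V i)).choose (∑ i, finrank ℚ (V i)) with hN
  let e : ∀ i, Basis (Fin (finrank ℚ (V i))) ℚ (V i) := fun i => finBasis ℚ (V i)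
  have hlc : ∀ i (p : V i), ZtFin.lc (fun l => (e i l : ℂ)) ((e i).repr p) = (p : ℂ) := by
    intro i p
    rw [ZtFin.lc_apply]
    have h := congrArg Subtype.val ((e i).sum_repr p)
    rw [← h]
    push_cast
    rfl
  let ι := Σ i : Fin n, Fin (finrank ℚ (V i))
  let μ : Fin n → (ι → ℚ) →ₗ[ℚ] ℂ := fun i =>
    ZtFin.lc (fun l => (e i l : ℂ)) ∘ₗ LinearMap.funLeft ℚ ℚ (fun l => (⟨i, l⟩ : ι))
  let φ : (∀ i, V i) → (ι → ℚ) := fun z p => (e p.1).repr (z p.1) p.2
  have hφi : Function.Injective φ := by
    intro z z' h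
    funext j
    apply (e j).repr.injective
    ext l
    exact congrFun h ⟨j, l⟩
  have hmu : ∀ (z : ∀ i, V i) (j : Fin n), μ j (φ z) = (z j : ℂ) := fun z j => hlc j (z j)
  have hev : ∀ (z : ∀ i, V i) (B : MvPolynomial (Fin n) F),
      DQ.ev μ B (φ z) = MvPolynomial.aeval (fun j => (z j : ℂ)) B := by
    intro z B
    unfold DQ.ev
    congr 1
    congr 1
    funext j
    exact hmu z j
  -- the translation of the conditions
  have hnull : ∀ k u, MixSys.Null F (ty L k) u → IsLog F L k u := by
    intro k u h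
    cases k with
    | ex => exact h
    | wp => exact h
    | ze => exact h
  have hinf : ∀ i, MixSys.InF F (ty L (κ i)) := by
    intro i
    cases κ i with
    | ex => exact trivial
    | wp => exact ⟨h2, h3⟩
    | ze => exact ⟨h2, h3⟩
  by_contra hcon
  rw [not_le] at hcon
  obtain ⟨t, hts, ht⟩ := Set.exists_subset_encard_eq (Order.add_one_le_of_lt hcon)
  have hfin : t.Finite := by
    rw [← Set.encard_lt_top_iff, ht]
    exact_mod_cast ENat.natCast_lt_top (N + 1)
  have hcard : hfin.toFinset.card = N + 1 := by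
    rw [hfin.encard_eq_coe_toFinset_card] at ht
    exact_mod_cast ht
  have key := MixAll.main (F := F) μ (fun i => fl (κ i)) hinf P Q hP hQ hab hb (by
    intro z hz
    funext ⟨i, l⟩
    have h4 := hlc i ((e i).equivFun.symm (fun l => z ⟨i, l⟩))
    have h5 : ((e i).repr ((e i).equivFun.symm (fun l => z ⟨i, l⟩)) : Fin (finrank ℚ (V i)) → ℚ) =
        fun l => z ⟨i, l⟩ := (e i).equivFun.apply_symm_apply _
    rw [h5] at h4
    have h7 : μ i z = ((e i).equivFun.symm (fun l => z ⟨i, l⟩) : V i) := h4
    have h8 := hV i _ (Subtype.mem ((e i).equivFun.symm (fun l => z ⟨i, l⟩)))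
      (by rw [← h7]; exact hnull _ _ (hz i))
    have h6 : (e i).equivFun.symm (fun l => z ⟨i, l⟩) = 0 := Subtype.ext h8
    exact congrFun ((LinearEquiv.map_eq_zero_iff _).1 h6) l) (hfin.toFinset.image φ) (by
    intro x hx i
    obtain ⟨z, hz, rfl⟩ := Finset.mem_image.1 hx
    rw [hev, hev, hmu]
    have hs := hts (hfin.mem_toFinset.1 hz) i
    have hVi := hV i (z i) (z i).2
    revert hs hVi
    cases κ i with
    | ex =>
      rintro ⟨hA, c, hc, h⟩ -
      have he := Complex.exp_ne_zero (z i : ℂ)
      have hec := Complex.exp_ne_zero c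
      refine ⟨hA, ?_, ?_⟩
      · rw [← h]
        exact mul_ne_zero hA (Complex.exp_ne_zero _)
      · rw [← h, Complex.exp_add]
        have h4 : MvPolynomial.aeval (fun j => (z j : ℂ)) (P i) * Complex.exp (z i : ℂ) /
            (MvPolynomial.aeval (fun j => (z j : ℂ)) (P i) *
              (Complex.exp (z i : ℂ) * Complex.exp c)) = (Complex.exp c)⁻¹ := by
          field_simp
        rw [h4]
        exact hc.inv
    | wp =>
      rintro ⟨hA, hz0, c, hc, hl, h⟩ hVi
      exact ⟨hA, fun hn => hz0 (hVi hn), c, hc, hl, h⟩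
    | ze =>
      rintro ⟨h0, β, hβ, h⟩ hVi
      have hn : ¬ MixSys.Null F (some L) (z i : ℂ) := fun hn => h0 (hVi hn)
      have hl : (z i : ℂ) ∉ L.lattice := fun h => hn (Or.inl h)
      refine ⟨hn, ?_⟩
      rw [Pool.Agent.W245.EB.zt_of_notMem hl]
      change IsAlgebraic F (ζ L (z i : ℂ) - MvPolynomial.aeval (fun j => (z j : ℂ)) (Q i))
      rw [h, add_sub_cancel_left]
      exact hβ)
  have hι : Fintype.card ι = ∑ i, finrank ℚ (V i) := by
    rw [Fintype.card_sigma]
    exact Finset.sum_congr rfl (fun i _ => Fintype.card_fin _)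
  rw [Finset.card_image_of_injective _ hφi, hcard, hι] at key
  omega

end Pool.Agent.Results.MP_8da9ea_nt.FewSolutions
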