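import Mathlib
import Pool.Agent.TH813.EKPer

/-!
# The elliptico-toric conjecture: all failures, with a uniform bound

`L` is a pair of periods `ω₁, ω₂` (independent over `ℝ`), `L.lattice = ℤ ω₁ + ℤ ω₂ = Ω`, and
`℘[L]`, `L.g₂`, `L.g₃` are Mathlib's Weierstrass function and invariants.

The conjecture says that
`trdeg K(ω₁, ω₂, η₁, η₂) ≥ dim ⟨t⟩ + 4 / [k : ℚ] + 2 dim ⟨p⟩`,
`K = ℚ(g₂, g₃, t, e^t, p, ℘(p), ζ(p))`, for all tuples `t` of complex numbers and all tuples `p` of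
complex numbers outside `Ω`, where `⟨t⟩` is the `ℚ`-span modulo `2πi ℚ` and `⟨p⟩` is the `k`-span
modulo `Ω ⊗ ℚ`.

The theorem: for every `r` there is a number `N` such that for every lattice, every `ℚ`-space `V₁`
and every `k`-space `V₂` of dimensions at most `r` all failures of the conjecture for
tuples `t` in `V₁` and `p` in `V₂`, together with their defects, are governed by at most `N` pairs
of subspaces of `V₁` and `V₂`.
-/

set_option autoImplicit false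

open Module
open scoped PeriodPair

namespace Pool.Agent.Results.MP_8da9ea_nt.UniformFailures

/-- The Weierstrass zeta function `ζ(z) = ∑ (1/(z-l) + 1/l + z/l²)`, the sum over the lattice (the
summand of `l = 0` is `1/z`, since `1/0 = 0` in Lean). -/
noncomputable def ζ (L : PeriodPair) (z : ℂ) : ℂ :=
  ∑' l : L.lattice, (1 / (z - l) + 1 / l + z / l ^ 2)

/-- the field `k = ℚ ⊗ End(ℂ / Ω)` as a subfield of `ℂ`; see `mem_k` -/
noncomputable abbrev k (L : PeriodPair) : IntermediateField ℚ ℂ := Pool.Agent.TH813.Ell.kL L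

/-- `k` consists of the numbers `c` such that `n c` maps the lattice to itself for some `n > 0` -/
theorem mem_k {L : PeriodPair} {c : ℂ} :
    c ∈ k L ↔ ∃ n : ℕ, 0 < n ∧ ∀ w ∈ L.lattice, (n * c) * w ∈ L.lattice := Iff.rfl

/-- `2πi ℚ` -/
noncomputable def T₀ : Submodule ℚ ℂ := Submodule.span ℚ {2 * Real.pi * Complex.I}

/-- `Ω ⊗ ℚ` as a space over `k`; see `mem_P₀` -/
noncomputable abbrev P₀ (L : PeriodPair) : Submodule (k L) ℂ := Pool.Agent.TH813.Ell.P₂ L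

/-- `Ω ⊗ ℚ` consists of the numbers which have a multiple in the lattice -/
theorem mem_P₀ {L : PeriodPair} {x : ℂ} :
    x ∈ P₀ L ↔ ∃ n : ℕ, 0 < n ∧ (n : ℂ) * x ∈ L.lattice := Iff.rfl

/-- the transcendence degree over `ℚ` of the field generated by `S` -/
noncomputable def trd (S : Set ℂ) : Cardinal := Algebra.trdeg ℚ (IntermediateField.adjoin ℚ S)

/-- generators of the field `K(ω₁, ω₂, η₁, η₂)`, with `ηᵢ = 2 ζ(ωᵢ / 2)` -/
noncomputable def gen (L : PeriodPair) {s n : ℕ} (t : Fin s → ℂ) (p : Fin n → ℂ) : Set ℂ :=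
  ({L.g₂, L.g₃} ∪ {L.ω₁, L.ω₂, 2 * ζ L (L.ω₁ / 2), 2 * ζ L (L.ω₂ / 2)}) ∪
    ((Set.range t ∪ Complex.exp '' Set.range t) ∪
      (Set.range p ∪ (℘[L] '' Set.range p ∪ ζ L '' Set.range p)))

/-- the dimension of a space -/
noncomputable def dim {K : Type} [Field K] [Module K ℂ] (X : Submodule K ℂ) : ℕ := finrank K X

/-- the dimension of the span of the classes of `z₁, …, zₙ` modulo `A` -/
noncomputable def dimMod {K : Type} [Field K] [Module K ℂ] (A : Submodule K ℂ) {n : ℕ}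
    (z : Fin n → ℂ) : ℕ := finrank K (Submodule.span K (Set.range (fun i => A.mkQ (z i))))

/-- The conjecture fails by at least `m` at `(t, p)`: the points `pᵢ` are outside the lattice and
`trdeg K(ω₁, ω₂, η₁, η₂) + m ≤ dim ⟨t⟩ + 4 / [k : ℚ] + 2 dim ⟨p⟩`. -/
def Fails (L : PeriodPair) (m : ℕ) {s n : ℕ} (t : Fin s → ℂ) (p : Fin n → ℂ) : Prop :=
  (∀ i, p i ∉ L.lattice) ∧
    trd (gen L t p) + m ≤ ((dimMod T₀ t + 4 / finrank ℚ (k L) + 2 * dimMod (P₀ L) p : ℕ) : Cardinal)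

/-- the numbers `g₂`, `g₃`, all `x` in `X₁` and `e^w` with `w` in `W₁`, all `x` and `ζ(x)` with `x`
in `X₂`, and all `℘(w)` with `w` in `W₂` (`ζ` and `℘` are only taken outside the lattice) -/
def num (L : PeriodPair) (X₁ W₁ : Submodule ℚ ℂ) (X₂ W₂ : Submodule (k L) ℂ) : Set ℂ :=
  {L.g₂, L.g₃} ∪ (((X₁ : Set ℂ) ∪ Complex.exp '' (W₁ : Set ℂ)) ∪
    ((X₂ : Set ℂ) ∪ (ζ L '' ((X₂ : Set ℂ) \ (L.lattice : Set ℂ)) ∪
      ℘[L] '' ((W₂ : Set ℂ) \ (L.lattice : Set ℂ)))))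

/-- pairs of a `ℚ`-space and a `k`-space of complex numbers; `≤` and `⊓` are componentwise -/
abbrev Pr (L : PeriodPair) : Type := Submodule ℚ ℂ × Submodule (k L) ℂ

/-- the pair of the spaces `2πi ℚ` and `Ω ⊗ ℚ` -/
noncomputable def base (L : PeriodPair) : Pr L := (T₀, P₀ L)

/-- the dimension is finite and at most `r` -/
def Sm {K : Type} [Field K] [Module K ℂ] (r : ℕ) (X : Submodule K ℂ) : Prop :=
  FiniteDimensional K X ∧ finrank K X ≤ r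

/-- both spaces have dimension at most `r` -/
def Small (L : PeriodPair) (r : ℕ) (V : Pr L) : Prop := Sm r V.1 ∧ Sm r V.2

/-- `trdeg (num (X, W)) + 1 + m ≤ dim X₁ + 2 dim X₂` -/
def Bad (L : PeriodPair) (m : ℕ) (X W : Pr L) : Prop :=
  trd (num L X.1 W.1 X.2 W.2) + 1 + m ≤ ((dim X.1 + 2 * dim X.2 : ℕ) : Cardinal)

section

open Pool.Agent.TH813.Ell Pool.Agent.TH813.Uni Pool.Agent.W669.Gel

variable {L : PeriodPair}

/-- the span modulo a subspace -/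
theorem finrank_mod {K : Type*} [Field K] [Module K ℂ] (A : Submodule K ℂ)
    [FiniteDimensional K A] {n : ℕ} (z : Fin n → ℂ) :
    finrank K (Submodule.span K (Set.range (fun i => A.mkQ (z i)))) + finrank K A =
      finrank K (A ⊔ Submodule.span K (Set.range z) : Submodule K ℂ) := by
  have h0 : FiniteDimensional K (Submodule.span K (Set.range z)) :=
    FiniteDimensional.span_of_finite K (Set.finite_range z)
  set X := A ⊔ Submodule.span K (Set.range z) with hX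
  have h1 := (A.mkQ ∘ₗ X.subtype).finrank_range_add_finrank_ker
  have h2 : LinearMap.range (A.mkQ ∘ₗ X.subtype) =
      Submodule.span K (Set.range (fun i => A.mkQ (z i))) := by
    rw [LinearMap.range_comp, Submodule.range_subtype, hX, Submodule.map_sup,
      Submodule.mkQ_map_self, bot_sup_eq, Submodule.map_span, ← Set.range_comp]
    rfl
  have h3 : LinearMap.ker (A.mkQ ∘ₗ X.subtype) = A.comap X.subtype := by
    rw [LinearMap.ker_comp, Submodule.ker_mkQ]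
  have h4 : finrank K (A.comap X.subtype) = finrank K A :=
    (Submodule.comapSubtypeEquivOfLe le_sup_left).finrank_eq
  rw [h2, h3, h4] at h1
  exact h1

theorem T₀_eq : T₀ = P₁ := rfl

theorem gen_eq (L : PeriodPair) {s n : ℕ} (t : Fin s → ℂ) (p : Fin n → ℂ) :
    gen L t p = ({L.g₂, L.g₃} ∪ {L.ω₁, L.ω₂, 2 * H667R3.zeta L (L.ω₁ / 2),
      2 * H667R3.zeta L (L.ω₂ / 2)}) ∪ ((Set.range t ∪ Complex.exp '' Set.range t) ∪
      (Set.range p ∪ (℘[L] '' Set.range p ∪ H667R3.zeta L '' Set.range p))) := rfl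

theorem fails_iff (U₁ : Submodule ℚ ℂ) (U₂ : Submodule (kL L) ℂ) [FiniteDimensional ℚ U₁]
    [FiniteDimensional (kL L) U₂] (h₁ : P₁ ≤ U₁) (h₂ : P₂ L ≤ U₂) (m : ℕ) :
    (∃ (s n : ℕ) (t : Fin s → ℂ) (p : Fin n → ℂ), Fails L m t p ∧ (∀ i, t i ∈ U₁) ∧
      ∀ i, p i ∈ U₂) ↔ ∃ X₁ X₂, P₁ ≤ X₁ ∧ X₁ ≤ U₁ ∧ P₂ L ≤ X₂ ∧ X₂ ≤ U₂ ∧
        dK L X₁ X₁ X₂ X₂ ≤ -1 - m := by
  constructor
  · rintro ⟨s, n, t, p, ⟨hp, hle⟩, hU₁, hU₂⟩
    have e1 := finrank_mod P₁ t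
    have e2 := finrank_mod (P₂ L) p
    refine ⟨P₁ ⊔ Submodule.span ℚ (Set.range t), P₂ L ⊔ Submodule.span (kL L) (Set.range p),
      le_sup_left, sup_le h₁ ?_, le_sup_left, sup_le h₂ ?_, ?_⟩
    · rw [Submodule.span_le]
      rintro _ ⟨i, rfl⟩
      exact hU₁ i
    · rw [Submodule.span_le]
      rintro _ ⟨i, rfl⟩
      exact hU₂ i
    · obtain ⟨τ, hτ⟩ := Cardinal.lt_aleph0.1
        (lt_of_le_of_lt (le_self_add.trans hle) Cardinal.natCast_lt_aleph0)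
      rw [hτ] at hle
      have h4 : tr (NK L (P₁ ⊔ Submodule.span ℚ (Set.range t))
          (P₁ ⊔ Submodule.span ℚ (Set.range t)) (P₂ L ⊔ Submodule.span (kL L) (Set.range p))
          (P₂ L ⊔ Submodule.span (kL L) (Set.range p))) ≤ (τ : Cardinal) := by
        have hk : ∀ D : Derivation ℚ ℂ ℂ, (∀ x ∈ gen L t p, D x = 0) →
            (∀ a ∈ P₁, D a = 0 ∧ dl D a = 0) ∧
              ∀ a ∈ P₂ L, D a = 0 ∧ om L D a = 0 ∧ et L D a = 0 := by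
          intro D hD
          rw [gen_eq] at hD
          exact per_killed (hD _ (Or.inl (Or.inl (Or.inl rfl))))
            (hD _ (Or.inl (Or.inl (Or.inr rfl)))) (hD _ (Or.inl (Or.inr (Or.inl rfl))))
            (hD _ (Or.inl (Or.inr (Or.inr (Or.inl rfl)))))
            (hD _ (Or.inl (Or.inr (Or.inr (Or.inr (Or.inl rfl))))))
            (hD _ (Or.inl (Or.inr (Or.inr (Or.inr (Or.inr rfl))))))
        exact tr_points_ge (L := L) (gen L t p) t p hp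
          (fun i => ⟨Or.inr (Or.inl (Or.inl ⟨i, rfl⟩)),
            Or.inr (Or.inl (Or.inr ⟨_, ⟨i, rfl⟩, rfl⟩))⟩)
          (fun i => ⟨Or.inr (Or.inr (Or.inl ⟨i, rfl⟩)),
            Or.inr (Or.inr (Or.inr (Or.inl ⟨_, ⟨i, rfl⟩, rfl⟩))),
            Or.inr (Or.inr (Or.inr (Or.inr ⟨_, ⟨i, rfl⟩, rfl⟩)))⟩)
          (Or.inl (Or.inl (Or.inl rfl))) (Or.inl (Or.inl (Or.inr rfl)))
          (fun D hD => (hk D hD).1) (fun D hD => (hk D hD).2) le_rfl le_rfl hτ.le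
      obtain ⟨τ', hτ'⟩ := Cardinal.lt_aleph0.1 (lt_of_le_of_lt h4 Cardinal.natCast_lt_aleph0)
      rw [hτ'] at h4
      have h5 : τ' ≤ τ := by exact_mod_cast h4
      have h6 : τ + m ≤ finrank ℚ (Submodule.span ℚ (Set.range (fun i => P₁.mkQ (t i)))) +
          4 / finrank ℚ (kL L) + 2 * finrank (kL L)
            (Submodule.span (kL L) (Set.range (fun i => (P₂ L).mkQ (p i)))) := by
        exact_mod_cast hle
      rw [four_div] at h6
      rw [finrank_P₁] at e1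
      unfold dK
      rw [hτ', Cardinal.toNat_natCast]
      omega
  · rintro ⟨X₁, X₂, hPX₁, hXU₁, hPX₂, hXU₂, h⟩
    have : FiniteDimensional ℚ X₁ := Submodule.finiteDimensional_of_le hXU₁
    have : FiniteDimensional (kL L) X₂ := Submodule.finiteDimensional_of_le hXU₂
    obtain ⟨Y₁, hYX₁, hYA₁, hYd₁⟩ := exists_rel_compl hPX₁
    obtain ⟨Y₂, hYX₂, hYA₂, hYd₂⟩ := exists_rel_compl hPX₂
    have : FiniteDimensional ℚ Y₁ := Submodule.finiteDimensional_of_le hYX₁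
    have : FiniteDimensional (kL L) Y₂ := Submodule.finiteDimensional_of_le hYX₂
    let b₁ := finBasis ℚ Y₁
    let b₂ := finBasis (kL L) Y₂
    have hl₁ := indep_of_inf_bot hYA₁ b₁
    have hl₂ := indep_of_inf_botK hYA₂ b₂
    have hoff : ∀ i, (b₂ i : ℂ) ∉ L.lattice := by
      intro i hi
      have h1 : (b₂ i : ℂ) ∈ Y₂ ⊓ P₂ L := ⟨(b₂ i).2, lattice_le_P₂ hi⟩
      rw [hYA₂, Submodule.mem_bot] at h1
      exact b₂.ne_zero i (Subtype.ext h1)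
    refine ⟨_, _, fun i => (b₁ i : ℂ), fun i => (b₂ i : ℂ), ⟨hoff, ?_⟩,
      fun i => hXU₁ (hYX₁ (b₁ i).2), fun i => hXU₂ (hYX₂ (b₂ i).2)⟩
    change _ ≤ ((finrank ℚ (Submodule.span ℚ (Set.range (fun i => P₁.mkQ (b₁ i : ℂ)))) +
        4 / finrank ℚ (kL L) +
        2 * finrank (kL L) (Submodule.span (kL L)
          (Set.range (fun i => (P₂ L).mkQ (b₂ i : ℂ)))) : ℕ) : Cardinal)
    rw [finrank_span_eq_card hl₁, finrank_span_eq_card hl₂, Fintype.card_fin, Fintype.card_fin,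
      four_div]
    obtain ⟨τ, hτ⟩ := Cardinal.lt_aleph0.1 (tr_NK_lt X₁ X₁ (le_refl X₂))
    have h4 : trd (gen L (fun i => (b₁ i : ℂ)) (fun i => (b₂ i : ℂ))) ≤ (τ : Cardinal) := by
      refine tr_le_of_killed (T := NK L X₁ X₁ X₂ X₂) (fun D hD x hx => ?_) hτ.le
      have hz : ∀ w ∈ X₂, w ∉ L.lattice → D (H667R3.zeta L w) = 0 := fun w hw hw' =>
        hD _ (Or.inr (Or.inr (Or.inr (Or.inl ⟨w, ⟨hw, hw'⟩, rfl⟩))))
      have hh : ∀ w ∈ L.lattice, w / 2 ∈ X₂ := fun w hw =>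
        hPX₂ ⟨2, two_pos, by
          have : ((2 : ℕ) : ℂ) * (w / 2) = w := by push_cast; ring
          rwa [this]⟩
      have hw2 : ∀ w ∈ L.lattice, w ∈ X₂ := fun w hw => hPX₂ (lattice_le_P₂ hw)
      have h2z : ∀ z : ℂ, D z = 0 → D (2 * z) = 0 := by
        intro z hz
        rw [Derivation.leibniz, hz, smul_zero, zero_add]
        have : D (2 : ℂ) = 0 := D.map_natCast 2
        rw [this, smul_zero]
      rw [gen_eq] at hx
      rcases hx with ((rfl | rfl) | (rfl | rfl | rfl | rfl)) |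
        ((⟨i, rfl⟩ | ⟨_, ⟨i, rfl⟩, rfl⟩) | (⟨i, rfl⟩ | ⟨_, ⟨i, rfl⟩, rfl⟩ | ⟨_, ⟨i, rfl⟩, rfl⟩))
      · exact hD _ (Or.inl (Or.inl rfl))
      · exact hD _ (Or.inl (Or.inr rfl))
      · exact hD _ (Or.inr (Or.inr (Or.inl (hw2 _ L.ω₁_mem_lattice))))
      · exact hD _ (Or.inr (Or.inr (Or.inl (hw2 _ L.ω₂_mem_lattice))))
      · exact h2z _ (hz _ (hh _ L.ω₁_mem_lattice) (half₁ L))
      · exact h2z _ (hz _ (hh _ L.ω₂_mem_lattice) (half₂ L))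
      · exact hD _ (Or.inr (Or.inl (Or.inl (hYX₁ (b₁ i).2))))
      · exact hD _ (Or.inr (Or.inl (Or.inr ⟨_, hYX₁ (b₁ i).2, rfl⟩)))
      · exact hD _ (Or.inr (Or.inr (Or.inl (hYX₂ (b₂ i).2))))
      · exact hD _ (Or.inr (Or.inr (Or.inr (Or.inr ⟨_, ⟨hYX₂ (b₂ i).2, hoff i⟩, rfl⟩))))
      · exact hz _ (hYX₂ (b₂ i).2) (hoff i)
    refine (add_le_add_left h4 _).trans ?_
    unfold dK at h
    rw [hτ, Cardinal.toNat_natCast] at h
    rw [finrank_P₁] at hYd₁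
    norm_cast
    omega

theorem dK_le_iff (X₁ W₁ : Submodule ℚ ℂ) (X₂ W₂ : Submodule (kL L) ℂ) [FiniteDimensional ℚ X₁]
    [FiniteDimensional ℚ W₁] [FiniteDimensional (kL L) W₂] (h : X₂ ≤ W₂) (m : ℕ) :
    dK L X₁ W₁ X₂ W₂ ≤ -1 - m ↔ trd (num L X₁ W₁ X₂ W₂) + 1 + m ≤
      ((finrank ℚ X₁ + 2 * finrank (kL L) X₂ : ℕ) : Cardinal) := by
  obtain ⟨t, ht⟩ := Cardinal.lt_aleph0.1 (tr_NK_lt (L := L) X₁ W₁ h)
  have h1 : trd (num L X₁ W₁ X₂ W₂) = t := ht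
  unfold dK
  rw [ht, h1, Cardinal.toNat_natCast]
  have h4 : ((t : Cardinal) + 1 + m ≤ ((finrank ℚ X₁ + 2 * finrank (kL L) X₂ : ℕ) : Cardinal)) ↔
      t + 1 + m ≤ finrank ℚ X₁ + 2 * finrank (kL L) X₂ := by norm_cast
  rw [h4]
  omega

end

open Pool.Agent.TH813.Ell in
/-- **Main result.** -/
theorem result (r : ℕ) : ∃ N : ℕ, ∀ (L : PeriodPair) (V : Pr L), Small L r V → base L ≤ V →
    ∃ T : Finset (Pr L), T.card ≤ N ∧
      (∀ W ∈ T, base L ≤ W ∧ W ≤ V ∧ Bad L 1 W W) ∧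
      ∀ U : Pr L, base L ≤ U → U ≤ V → ∀ m : ℕ, 0 < m →
        ((∃ (s n : ℕ) (t : Fin s → ℂ) (p : Fin n → ℂ),
            Fails L m t p ∧ (∀ i, t i ∈ U.1) ∧ ∀ i, p i ∈ U.2) ↔
          ∃ W ∈ T, Bad L m (U ⊓ W) W) := by
  classical
  obtain ⟨N, hN⟩ := relK r
  refine ⟨N + 1, fun L V ⟨⟨hfd₁, hr₁⟩, hfd₂, hr₂⟩ hA => ?_⟩
  obtain ⟨V₁, V₂⟩ := V
  obtain ⟨hA₁, hA₂⟩ := hA
  change P₁ ≤ V₁ at hA₁
  change P₂ L ≤ V₂ at hA₂
  obtain ⟨T, hT1, hT2, hT3⟩ := hN L P₁ V₁ (P₂ L) V₂ hfd₁ hfd₂ hr₁ hr₂ hA₁ hA₂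
  have hfd₁' : ∀ X : Submodule ℚ ℂ, X ≤ V₁ → FiniteDimensional ℚ X :=
    fun X hX => Submodule.finiteDimensional_of_le hX
  have hfd₂' : ∀ X : Submodule (kL L) ℂ, X ≤ V₂ → FiniteDimensional (kL L) X :=
    fun X hX => Submodule.finiteDimensional_of_le hX
  set T' := insert (P₁, P₂ L) T with hT'
  have hmem : ∀ W ∈ T', P₁ ≤ W.1 ∧ W.1 ≤ V₁ ∧ P₂ L ≤ W.2 ∧ W.2 ≤ V₂ := by
    intro W hW
    rcases Finset.mem_insert.1 hW with rfl | hW
    · exact ⟨le_rfl, hA₁, le_rfl, hA₂⟩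
    · exact ⟨(hT2 W hW).1, (hT2 W hW).2.1, (hT2 W hW).2.2.1, (hT2 W hW).2.2.2.1⟩
  refine ⟨T'.filter (fun W => dK L W.1 W.1 W.2 W.2 ≤ -2),
    (Finset.card_filter_le _ _).trans ((Finset.card_insert_le _ _).trans (by omega)), ?_, ?_⟩
  · intro W hW
    obtain ⟨hW1, hW2⟩ := Finset.mem_filter.1 hW
    obtain ⟨h1, h2, h3, h4⟩ := hmem W hW1
    have := hfd₁' _ h2
    have := hfd₂' _ h4
    exact ⟨⟨h1, h3⟩, ⟨h2, h4⟩, (dK_le_iff W.1 W.1 W.2 W.2 le_rfl 1).1 (by push_cast; omega)⟩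
  · rintro ⟨U₁, U₂⟩ ⟨hU₁, hU₂⟩ ⟨hUV₁, hUV₂⟩ m hm
    change P₁ ≤ U₁ at hU₁
    change P₂ L ≤ U₂ at hU₂
    change U₁ ≤ V₁ at hUV₁
    change U₂ ≤ V₂ at hUV₂
    have := hfd₁' _ hUV₁
    have := hfd₂' _ hUV₂
    have hf := fails_iff U₁ U₂ hU₁ hU₂ m
    constructor
    · intro hex
      obtain ⟨X₁, X₂, hPX₁, hXU₁, hPX₂, hXU₂, h⟩ := hf.1 hex
      obtain ⟨W, hW, h4⟩ : ∃ W ∈ T', dK L (U₁ ⊓ W.1) W.1 (U₂ ⊓ W.2) W.2 ≤ -1 - m := by
        by_cases hd : -1 - (m : ℤ) < dK L P₁ P₁ (P₂ L) (P₂ L)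
        · obtain ⟨W, hW, h4⟩ := (hT3 U₁ U₂ hU₁ hUV₁ hU₂ hUV₂ (-1 - m) hd).1
            ⟨X₁, X₂, hPX₁, hXU₁, hPX₂, hXU₂, h⟩
          exact ⟨W, Finset.mem_insert_of_mem hW, h4⟩
        · refine ⟨(P₁, P₂ L), Finset.mem_insert_self _ _, ?_⟩
          change dK L (U₁ ⊓ P₁) P₁ (U₂ ⊓ P₂ L) (P₂ L) ≤ -1 - m
          have hU₂' : U₂ ⊓ P₂ L = P₂ L := inf_eq_right.2 hU₂
          rw [inf_eq_right.2 hU₁, hU₂']
          omega
      obtain ⟨h1, h2, h3, h5⟩ := hmem W hW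
      have := hfd₁' _ h2
      have := hfd₂' _ h5
      have := hfd₁' (U₁ ⊓ W.1) (inf_le_left.trans hUV₁)
      have h6 := dK_anti (L := L) (X₁ := U₁ ⊓ W.1) (X₁' := W.1) (W₁ := W.1) (X₂ := U₂ ⊓ W.2)
        (X₂' := W.2) (W₂ := W.2) inf_le_right inf_le_right le_rfl
      exact ⟨W, Finset.mem_filter.2 ⟨hW, by omega⟩,
        (dK_le_iff (U₁ ⊓ W.1) W.1 (U₂ ⊓ W.2) W.2 inf_le_right m).1 h4⟩
    · rintro ⟨W, hW, h⟩
      obtain ⟨hW1, hW2⟩ := Finset.mem_filter.1 hW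
      obtain ⟨h1, h2, h3, h4⟩ := hmem W hW1
      have := hfd₁' _ h2
      have := hfd₂' _ h4
      have := hfd₁' (U₁ ⊓ W.1) (inf_le_left.trans hUV₁)
      have h5 := (dK_le_iff (U₁ ⊓ W.1) W.1 (U₂ ⊓ W.2) W.2 inf_le_right m).2 h
      exact hf.2 ⟨U₁ ⊓ W.1, U₂ ⊓ W.2, le_inf hU₁ h1, inf_le_left, le_inf hU₂ h3, inf_le_left,
        (dK_mono inf_le_right inf_le_right le_rfl).trans h5⟩

end Pool.Agent.Results.MP_8da9ea_nt.UniformFailures
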